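import Mathlib
import Pool.Agent.H20.SplitDefs
import Pool.Agent.H20.SplitCard

set_option autoImplicit false

namespace Pool.Agent.Results.MP_ef395a_gt.Independent

open Pool.Agent.H20.Split TopologicalSpace

theorem secondCountable (Y : Type) [TopologicalSpace Y] [MetrizableSpace Y] [SeparableSpace Y] :
    SecondCountableTopology Y := by
  let _ := metrizableSpaceMetric Y
  exact UniformSpace.secondCountable_of_separable Y

/-- (1) If `Y` has `Split(Λ,Λ)`, then all products `X × Y` with `X` compact have it if and only
if `Y` has Menger's property.  (2) If `𝔲 < 𝔤`, then `X × Y` has `Split(Λ,Λ)` whenever `X` is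
compact and `Y` has `Split(Λ,Λ)`.  (3) If `𝔡 < 𝔯`, then this fails. -/
theorem result :
    (∀ (Y : Type) [TopologicalSpace Y] [MetrizableSpace Y] [SeparableSpace Y], SplitLL Y →
      ((∀ (X : Type) [TopologicalSpace X] [MetrizableSpace X] [SeparableSpace X]
        [CompactSpace X], SplitLL (X × Y)) ↔ Menger Y)) ∧
    (uNum < gNum →
      ∀ (X Y : Type) [TopologicalSpace X] [MetrizableSpace X] [SeparableSpace X] [CompactSpace X]
        [TopologicalSpace Y] [MetrizableSpace Y] [SeparableSpace Y],
        SplitLL Y → SplitLL (X × Y)) ∧
    (dNum < rNum →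
      ∃ (X Y : Type) (_ : TopologicalSpace X) (_ : MetrizableSpace X) (_ : SeparableSpace X)
        (_ : CompactSpace X) (_ : TopologicalSpace Y) (_ : MetrizableSpace Y)
        (_ : SeparableSpace Y), SplitLL Y ∧ ¬ SplitLL (X × Y)) := by
  refine ⟨?_, ?_, ?_⟩
  · intro Y _ _ _ hS
    have h1 := secondCountable Y
    constructor
    · intro h
      by_contra hM
      exact not_split_of_not_menger hM (h (ℕ → Bool))
    · intro hM X _ _ _ _
      have h2 := secondCountable X
      exact split_prod_of_menger hM hS
  · intro hug X Y _ _ _ _ _ _ _ hS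
    have h1 := secondCountable Y
    have h2 := secondCountable X
    exact split_prod_of_menger (menger_of_u_lt_g hug hS) hS
  · intro hdr
    obtain ⟨D, hD, hM⟩ := exists_of_d_lt_r hdr
    exact ⟨ℕ → Bool, D, inferInstance, inferInstance, inferInstance, inferInstance,
      inferInstance, inferInstance, inferInstance, hD, not_split_of_not_menger hM⟩

end Pool.Agent.Results.MP_ef395a_gt.Independent
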